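import Pool.Agent.Lib.SmF.Recip
import Pool.Agent.Lib.SmF.Lag
import Pool.Agent.Lib.SmD.LocV
import Pool.Agent.Lib.SmJ.Sys

/-!
# SMITH for Jacobians, block F: reciprocity, correction and duality for homomorphisms with values in
a finite symplectic `ZMod 2`-space `V1`

General version of `SmF/RecipV.lean`, `SmF/DualV.lean`. At the end: the fields `recip`, `corr`,
`dual` of `Pool.Agent.SmJ.Sys.Ok` for every `S : Sys G V V1 (Place k (RatFunc k))` with the chosen
data of block D.
-/

set_option autoImplicit false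

open Polynomial Pool.Agent.BSDFF Pool.Agent.BSDP.R Pool.Agent.Lib.SmD Pool.Agent.SmF
open Pool.Agent.SmJ (sym)

namespace Pool.Agent.SmFJ

section form

variable {V1 : Type} [AddCommGroup V1] [Module (ZMod 2) V1]
  {e : V1 →ₗ[ZMod 2] V1 →ₗ[ZMod 2] ZMod 2}

theorem e_comm (ha : ∀ w, e w w = 0) (x y : V1) : e x y = e y x := by
  have h := ha (x + y)
  simp only [map_add, LinearMap.add_apply, ha, zero_add, add_zero] at h
  have h1 : ∀ a b : ZMod 2, a + b = 0 → a = b := by decide
  exact (h1 _ _ h).symm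

theorem sym_comm (ha : ∀ w, e w w = 0) (ep : ZMod 2) (x y : V1 × V1) :
    sym e ep x y = sym e ep y x := by
  unfold sym
  rw [e_comm ha x.1 y.2, e_comm ha x.2 y.1, e_comm ha x.1 y.1]
  ring

theorem sym_add_left (ep : ZMod 2) (x x' y : V1 × V1) :
    sym e ep (x + x') y = sym e ep x y + sym e ep x' y := by
  unfold sym
  simp only [Prod.fst_add, Prod.snd_add, map_add, LinearMap.add_apply]
  ring

theorem sym_add_right (ep : ZMod 2) (x y y' : V1 × V1) :
    sym e ep x (y + y') = sym e ep x y + sym e ep x y' := by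
  unfold sym
  simp only [Prod.fst_add, Prod.snd_add, map_add]
  ring

theorem sym_smul_left (ep a : ZMod 2) (x y : V1 × V1) :
    sym e ep (a • x) y = a * sym e ep x y := by
  unfold sym
  simp only [Prod.smul_fst, Prod.smul_snd, map_smul, LinearMap.smul_apply, smul_eq_mul]
  ring

theorem sym_smul_right (ep a : ZMod 2) (x y : V1 × V1) :
    sym e ep x (a • y) = a * sym e ep x y := by
  unfold sym
  simp only [Prod.smul_fst, Prod.smul_snd, map_smul, smul_eq_mul]
  ring

theorem sym_unr (ep : ZMod 2) {x y : V1 × V1} (hx : x.1 = 0) (hy : y.1 = 0) :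
    sym e ep x y = 0 := by
  unfold sym
  rw [hx, hy]
  simp

theorem sym_nondeg (hn : ∀ w, (∀ w', e w w' = 0) → w = 0) (ep : ZMod 2) (x : V1 × V1)
    (h : ∀ y, sym e ep x y = 0) : x = 0 := by
  obtain ⟨a, b⟩ := x
  have ha : a = 0 := by
    refine hn a fun w => ?_
    have h1 := h (0, w)
    unfold sym at h1
    simpa using h1
  subst ha
  have hb : b = 0 := by
    refine hn b fun w => ?_
    have h1 := h (w, 0)
    unfold sym at h1
    simpa using h1
  subst hb
  rfl

variable {ι : Type} [Fintype ι]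

/-- the sum of the local symbols -/
noncomputable def frm (e : V1 →ₗ[ZMod 2] V1 →ₗ[ZMod 2] ZMod 2) (ep : ι → ZMod 2) :
    LinearMap.BilinForm (ZMod 2) (ι → V1 × V1) :=
  LinearMap.mk₂ (ZMod 2) (fun x y => ∑ i, sym e (ep i) (x i) (y i))
    (fun x x' y => by
      rw [← Finset.sum_add_distrib]
      exact Finset.sum_congr rfl fun i _ => sym_add_left _ _ _ _)
    (fun a x y => by
      rw [smul_eq_mul, Finset.mul_sum]
      exact Finset.sum_congr rfl fun i _ => sym_smul_left _ _ _ _)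
    (fun x y y' => by
      rw [← Finset.sum_add_distrib]
      exact Finset.sum_congr rfl fun i _ => sym_add_right _ _ _ _)
    (fun a x y => by
      rw [smul_eq_mul, Finset.mul_sum]
      exact Finset.sum_congr rfl fun i _ => sym_smul_right _ _ _ _)

theorem frm_apply (ep : ι → ZMod 2) (x y : ι → V1 × V1) :
    frm e ep x y = ∑ i, sym e (ep i) (x i) (y i) := rfl

theorem frm_symm (ha : ∀ w, e w w = 0) (ep : ι → ZMod 2) : (frm e ep).IsSymm := by
  constructor
  intro x y
  rw [frm_apply, frm_apply]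
  exact Finset.sum_congr rfl fun i _ => sym_comm ha _ _ _

theorem frm_nondeg (ha : ∀ w, e w w = 0) (hn : ∀ w, (∀ w', e w w' = 0) → w = 0)
    (ep : ι → ZMod 2) : (frm e ep).Nondegenerate := by
  classical
  have h1 : ∀ x : ι → V1 × V1, (∀ y, frm e ep x y = 0) → x = 0 := by
    intro x hx
    funext i
    refine sym_nondeg hn (ep i) (x i) fun y => ?_
    have h3 := hx (Pi.single i y)
    rw [frm_apply, Finset.sum_eq_single i] at h3
    · rwa [Pi.single_eq_same] at h3
    · intro j _ hj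
      rw [Pi.single_eq_of_ne hj]
      unfold sym
      simp
    · intro h
      exact absurd (Finset.mem_univ i) h
  refine ⟨h1, fun y hy => h1 y fun x => ?_⟩
  rw [(frm_symm ha ep).eq y x]
  exact hy x

end form

variable {k : Type} [Field k] {Ω : Type} [Field Ω] [Algebra (RatFunc k) Ω]
  {sg ph : Place k (RatFunc k) → (Ω ≃ₐ[RatFunc k] Ω)}
  {V1 : Type} [AddCommGroup V1] [Module (ZMod 2) V1]

/-- `chi f ⊗ w` -/
noncomputable def cw (f : RatFunc k) (w : V1) (s : Ω ≃ₐ[RatFunc k] Ω) : V1 :=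
  chi (RatFunc k) f s • w

theorem cw_homG [IsSepClosure (RatFunc k) Ω] (h2 : (2 : k) ≠ 0) {f : RatFunc k} (hf : f ≠ 0)
    (w : V1) : HomG (fun s : Ω ≃ₐ[RatFunc k] Ω => cw f w s) := by
  have h1 := chi_homG (Ω := Ω) (two_ratFunc h2) hf
  refine ⟨h1.1.comp fun x => x • w, fun s t => ?_⟩
  change cw f w (s * t) = cw f w s + cw f w t
  unfold cw
  rw [chi_mul (two_ratFunc h2) hf, add_smul]

theorem cw_zero {f : RatFunc k} {w : V1} {s : Ω ≃ₐ[RatFunc k] Ω}
    (h : chi (RatFunc k) f s = 0) : cw f w s = 0 := by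
  unfold cw
  rw [h, zero_smul]

theorem cw_one {f : RatFunc k} {w : V1} {s : Ω ≃ₐ[RatFunc k] Ω}
    (h : chi (RatFunc k) f s = 1) : cw f w s = w := by
  unfold cw
  rw [h, one_smul]

theorem cw_add (f : RatFunc k) (w w' : V1) (s : Ω ≃ₐ[RatFunc k] Ω) :
    cw f (w + w') s = cw f w s + cw f w' s := smul_add _ _ _

theorem cw_smul (f : RatFunc k) (a : ZMod 2) (w : V1) (s : Ω ≃ₐ[RatFunc k] Ω) :
    cw f (a • w) s = a • cw f w s := smul_comm _ _ _

theorem homG_sum {K Ω : Type} [Field K] [Field Ω] [Algebra K Ω] {A ι : Type} [AddCommGroup A]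
    (S : Finset ι) {c : ι → (Ω ≃ₐ[K] Ω) → A} (h : ∀ i ∈ S, HomG (c i)) :
    HomG (fun s => ∑ i ∈ S, c i s) := by
  classical
  induction S using Finset.induction_on with
  | empty => simpa using HomG.zero
  | insert a S ha ih =>
    have h1 : (fun s => ∑ i ∈ insert a S, c i s) = fun s => c a s + ∑ i ∈ S, c i s := by
      funext s
      exact Finset.sum_insert ha
    rw [h1]
    exact (h a (Finset.mem_insert_self a S)).add
      (ih fun i hi => h i (Finset.mem_insert_of_mem hi))

/-- every `2`-finite homomorphism is a combination of quadratic characters -/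
theorem exists_coords [Finite V1] [IsSepClosure (RatFunc k) Ω] (h2 : (2 : k) ≠ 0)
    {n : ℕ} (b : Module.Basis (Fin n) (ZMod 2) V1) {c : (Ω ≃ₐ[RatFunc k] Ω) → V1}
    (hc : HomG c) : ∃ f : Fin n → RatFunc k, (∀ i, f i ≠ 0) ∧
      ∀ s, c s = ∑ i, chi (RatFunc k) (f i) s • b i := by
  have h1 : ∀ i, ∃ f : RatFunc k, f ≠ 0 ∧ ∀ s, b.repr (c s) i = chi (RatFunc k) f s := by
    intro i
    refine kummer (two_ratFunc h2) (c := fun s => b.repr (c s) i) ⟨hc.1.comp fun x => b.repr x i,
      fun s t => ?_⟩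
    change b.repr (c (s * t)) i = b.repr (c s) i + b.repr (c t) i
    rw [hc.2, map_add, Finsupp.add_apply]
  choose f hf hf' using h1
  refine ⟨f, hf, fun s => ?_⟩
  conv_lhs => rw [← b.sum_repr (c s)]
  exact Finset.sum_congr rfl fun i _ => by rw [← hf' i s]

/-- **Reciprocity** (F2). -/
theorem recip [Finite V1] [IsSepClosure (RatFunc k) Ω] [Finite k] (H : LocVals sg ph)
    (h2 : (2 : k) ≠ 0) (e : V1 →ₗ[ZMod 2] V1 →ₗ[ZMod 2] ZMod 2)
    (c d : (Ω ≃ₐ[RatFunc k] Ω) → V1) (hc : HomG c) (hd : HomG d) :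
    ∑ᶠ v, sym e (eps v) (c (sg v), c (ph v)) (d (sg v), d (ph v)) = 0 := by
  have hfin : Module.Finite (ZMod 2) V1 := Module.Finite.of_finite
  let b := Module.finBasis (ZMod 2) V1
  obtain ⟨f, hf, h1⟩ := exists_coords h2 b hc
  obtain ⟨g, hg, h3⟩ := exists_coords h2 b hd
  have hexp : ∀ s t : Ω ≃ₐ[RatFunc k] Ω, e (c s) (d t) =
      ∑ i, ∑ j, e (b i) (b j) * (chi (RatFunc k) (f i) s * chi (RatFunc k) (g j) t) := by
    intro s t
    rw [h1, h3]
    simp only [map_sum, LinearMap.sum_apply, map_smul, LinearMap.smul_apply, smul_eq_mul,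
      Finset.mul_sum]
    rw [Finset.sum_comm]
    refine Finset.sum_congr rfl fun i _ => ?_
    refine Finset.sum_congr rfl fun j _ => ?_
    ring
  have h6 : ∀ v, sym e (eps v) (c (sg v), c (ph v)) (d (sg v), d (ph v)) =
      ∑ i, ∑ j, e (b i) (b j) * sy1 sg ph (f i) (g j) v := by
    intro v
    unfold sym sy1
    simp only [hexp, Finset.mul_sum, ← Finset.sum_add_distrib]
    refine Finset.sum_congr rfl fun i _ => ?_
    refine Finset.sum_congr rfl fun j _ => ?_
    ring
  have h7 : ∀ i j, (Function.support fun v => e (b i) (b j) * sy1 sg ph (f i) (g j) v).Finite := by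
    intro i j
    refine (H.fin_sy1 h2 (hf i) (hg j)).subset fun v hv h => hv ?_
    change _ * _ = _
    rw [h, mul_zero]
  rw [finsum_congr h6, finsum_sum_comm]
  · refine Finset.sum_eq_zero fun i _ => ?_
    rw [finsum_sum_comm]
    · refine Finset.sum_eq_zero fun j _ => ?_
      rw [← mul_finsum, H.recip1 h2 (hf i) (hg j), mul_zero]
    · exact fun j _ => h7 i j
  · intro i _
    refine (Set.finite_iUnion fun j => h7 i j).subset fun v hv => ?_
    by_contra hcon
    apply hv
    rw [Set.mem_iUnion] at hcon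
    push Not at hcon
    exact Finset.sum_eq_zero fun j _ => Function.notMem_support.1 (hcon j)

/-- every `2`-finite homomorphism is unramified almost everywhere -/
theorem fin_ramV [Finite V1] [IsSepClosure (RatFunc k) Ω] (H : LocVals sg ph)
    (h2 : (2 : k) ≠ 0) {c : (Ω ≃ₐ[RatFunc k] Ω) → V1} (hc : HomG c) :
    {v | c (sg v) ≠ 0}.Finite := by
  have hfin : Module.Finite (ZMod 2) V1 := Module.Finite.of_finite
  let b := Module.finBasis (ZMod 2) V1
  obtain ⟨f, hf, h1⟩ := exists_coords h2 b hc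
  refine (Set.finite_iUnion fun i => H.fin_ram h2 (hf i)).subset fun v hv => ?_
  by_contra hcon
  apply hv
  rw [Set.mem_iUnion] at hcon
  push Not at hcon
  rw [h1]
  refine Finset.sum_eq_zero fun i _ => ?_
  have h3 : ¬ chi (RatFunc k) (f i) (sg v) ≠ 0 := hcon i
  rw [not_not.1 h3, zero_smul]

/-- **Correction** (F3): a `2`-finite homomorphism with given ramification at a finite set of finite
places, unramified at the other finite places. -/
theorem corr [IsSepClosure (RatFunc k) Ω] (H : LocVals sg ph) (h2 : (2 : k) ≠ 0)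
    (T : Finset (Place k (RatFunc k))) (hT : placeInfty k ∉ T) (w : Place k (RatFunc k) → V1) :
    ∃ c : (Ω ≃ₐ[RatFunc k] Ω) → V1, HomG c ∧ (∀ v ∈ T, c (sg v) = w v) ∧
      ∀ v, v ∉ T → v ≠ placeInfty k → c (sg v) = 0 := by
  classical
  induction T using Finset.induction_on with
  | empty => exact ⟨fun _ => 0, HomG.zero, by simp, fun _ _ _ => rfl⟩
  | insert v T hv ih =>
    rw [Finset.mem_insert, not_or] at hT
    obtain ⟨c, h1, h3, h4⟩ := ih hT.2
    rcases place_cases v with rfl | ⟨P, hP, hm, rfl⟩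
    · exact absurd rfl hT.1
    have hP0 : algebraMap k[X] (RatFunc k) P ≠ 0 := by simpa using hP.ne_zero
    have h5 : ∀ u : Place k (RatFunc k), u ≠ placeOf P hP → u ≠ placeInfty k →
        chi (RatFunc k) (algebraMap k[X] (RatFunc k) P) (sg u) = 0 := by
      intro u hu hui
      rcases place_cases u with rfl | ⟨Q, hQ, hmQ, rfl⟩
      · exact absurd rfl hui
      · refine H.sg_of_not_dvd hQ (not_dvd_of_ne hQ hmQ hP hm ?_)
        rintro rfl
        exact hu rfl
    refine ⟨fun s => c s + cw (algebraMap k[X] (RatFunc k) P) (w (placeOf P hP)) s,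
      h1.add (cw_homG h2 hP0 _), ?_, ?_⟩
    · intro u hu
      rcases Finset.mem_insert.1 hu with rfl | hu'
      · change c _ + cw _ _ _ = _
        rw [h4 _ hv (placeInfty_ne hP).symm, cw_one (H.sg_self hP), zero_add]
      · have hne : u ≠ placeOf P hP := by
          rintro rfl
          exact hv hu'
        have hni : u ≠ placeInfty k := by
          rintro rfl
          exact hT.2 hu'
        change c _ + cw _ _ _ = _
        rw [h3 u hu', cw_zero (h5 u hne hni), add_zero]
    · intro u hu hui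
      rw [Finset.mem_insert, not_or] at hu
      change c _ + cw _ _ _ = _
      rw [h4 u hu.2 hui, cw_zero (h5 u hu.1 hui), add_zero]

/-- generators of the `S`-units modulo squares: a prime for every finite place, a non-square
constant for infinity -/
private theorem FJ_gen [IsSepClosure (RatFunc k) Ω] [Finite k] (H : LocVals sg ph)
    (h2 : (2 : k) ≠ 0) (v : Place k (RatFunc k)) : ∃ f : RatFunc k, f ≠ 0 ∧
      (v ≠ placeInfty k → chi (RatFunc k) f (sg v) = 1) ∧
      (∀ w, w ≠ v → w ≠ placeInfty k → chi (RatFunc k) f (sg w) = 0) ∧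
      (v = placeInfty k → (∀ w, chi (RatFunc k) f (sg w) = 0) ∧
        chi (RatFunc k) f (ph (placeInfty k)) = 1) := by
  rcases place_cases v with rfl | ⟨P, hP, hm, rfl⟩
  · have hch : ringChar k ≠ 2 := by
      intro h
      apply h2
      have := CharP.cast_eq_zero k (ringChar k)
      rw [h] at this
      exact_mod_cast this
    obtain ⟨u, hu⟩ := FiniteField.exists_nonsquare hch
    have hu0 : u ≠ 0 := by
      rintro rfl
      exact hu ⟨0, by simp⟩
    refine ⟨algebraMap k (RatFunc k) u, by simpa using hu0, fun h => absurd rfl h,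
      fun w _ _ => H.sg_const w hu0, fun _ => ⟨fun w => H.sg_const w hu0, ?_⟩⟩
    rw [H.ph_const_infty hu0]
    exact zmod2_ne_zero fun h => hu ((sq2_eq_zero u).1 h)
  · refine ⟨algebraMap k[X] (RatFunc k) P, by simpa using hP.ne_zero, fun _ => H.sg_self hP, ?_,
      fun h => absurd h (placeInfty_ne hP).symm⟩
    intro w hw hwi
    rcases place_cases w with rfl | ⟨Q, hQ, hmQ, rfl⟩
    · exact absurd rfl hwi
    · refine H.sg_of_not_dvd hQ (not_dvd_of_ne hQ hmQ hP hm ?_)
      rintro rfl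
      exact hw rfl

/-- the global homomorphism with the code `b` -/
private noncomputable def Dual_G {ι : Type} [Fintype ι] (g : ι → RatFunc k) (b : ι → V1)
    (s : Ω ≃ₐ[RatFunc k] Ω) : V1 := ∑ i, cw (g i) (b i) s

/-- the local values -/
private noncomputable def Dual_loc (sg ph : Place k (RatFunc k) → (Ω ≃ₐ[RatFunc k] Ω))
    {ι : Type} [Fintype ι] (g : ι → RatFunc k) (pl : ι → Place k (RatFunc k)) :
    (ι → V1) →ₗ[ZMod 2] (ι → V1 × V1) where
  toFun b i := (Dual_G g b (sg (pl i)), Dual_G g b (ph (pl i)))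
  map_add' b b' := by
    funext i
    unfold Dual_G
    refine Prod.ext ?_ ?_
    · change _ = _ + _
      rw [← Finset.sum_add_distrib]
      exact Finset.sum_congr rfl fun j _ => cw_add _ _ _ _
    · change _ = _ + _
      rw [← Finset.sum_add_distrib]
      exact Finset.sum_congr rfl fun j _ => cw_add _ _ _ _
  map_smul' a b := by
    funext i
    unfold Dual_G
    refine Prod.ext ?_ ?_
    · change _ = a • _
      rw [Finset.smul_sum]
      exact Finset.sum_congr rfl fun j _ => cw_smul _ _ _ _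
    · change _ = a • _
      rw [Finset.smul_sum]
      exact Finset.sum_congr rfl fun j _ => cw_smul _ _ _ _

/-- **Duality** (F4). -/
theorem dual [Finite V1] [IsSepClosure (RatFunc k) Ω] [Finite k] (H : LocVals sg ph)
    (h2 : (2 : k) ≠ 0) {e : V1 →ₗ[ZMod 2] V1 →ₗ[ZMod 2] ZMod 2} (ha : ∀ w, e w w = 0)
    (hn : ∀ w, (∀ w', e w w' = 0) → w = 0) (W : Place k (RatFunc k) → AddSubgroup (V1 × V1))
    (hcard : ∀ v, Nat.card (W v) = Nat.card V1)
    (hiso : ∀ v, ∀ x ∈ W v, ∀ y ∈ W v, sym e (eps v) x y = 0)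
    (hur : {v | ¬ ∀ x : V1 × V1, x ∈ W v ↔ x.1 = 0}.Finite)
    (xi : Place k (RatFunc k) → V1 × V1) (hxi : {v | xi v ∉ W v}.Finite)
    (horth : ∀ b : (Ω ≃ₐ[RatFunc k] Ω) → V1, HomG b → (∀ v, (b (sg v), b (ph v)) ∈ W v) →
      ∑ᶠ v, sym e (eps v) (xi v) (b (sg v), b (ph v)) = 0) :
    ∃ om : (Ω ≃ₐ[RatFunc k] Ω) → V1, HomG om ∧
      ∀ v, (om (sg v), om (ph v)) - xi v ∈ W v := by
  classical
  -- the finite set of places
  let T : Finset (Place k (RatFunc k)) := insert (placeInfty k) (hur.toFinset ∪ hxi.toFinset)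
  have hTi : placeInfty k ∈ T := Finset.mem_insert_self _ _
  have hTu : ∀ v, v ∉ T → ∀ x : V1 × V1, x ∈ W v ↔ x.1 = 0 := by
    intro v hv
    by_contra h
    apply hv
    exact Finset.mem_insert_of_mem (Finset.mem_union_left _ (hur.mem_toFinset.2 h))
  have hTx : ∀ v, v ∉ T → xi v ∈ W v := by
    intro v hv
    by_contra h
    apply hv
    exact Finset.mem_insert_of_mem (Finset.mem_union_right _ (hxi.mem_toFinset.2 h))
  have hgen := FJ_gen H h2
  choose g hg0 hg1 hg2 hg3 using hgen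
  let ι := {v // v ∈ T}
  let pl : ι → Place k (RatFunc k) := fun i => i.1
  let gi : ι → RatFunc k := fun i => g i.1
  -- the global homomorphisms
  have hG : ∀ b : ι → V1, HomG (fun s : Ω ≃ₐ[RatFunc k] Ω => Dual_G gi b s) := fun b =>
    homG_sum Finset.univ fun i _ => cw_homG h2 (hg0 i.1) (b i)
  have hGout : ∀ (b : ι → V1) (v), v ∉ T → Dual_G gi b (sg v) = 0 := by
    intro b v hv
    refine Finset.sum_eq_zero fun i _ => cw_zero ?_
    refine hg2 i.1 v ?_ ?_
    · rintro rfl
      exact hv i.2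
    · rintro rfl
      exact hv hTi
  have hGin : ∀ (b : ι → V1) (i : ι), i.1 ≠ placeInfty k → Dual_G gi b (sg i.1) = b i := by
    intro b i hi
    unfold Dual_G
    rw [Finset.sum_eq_single i]
    · exact cw_one (hg1 i.1 hi)
    · intro j _ hj
      refine cw_zero (hg2 j.1 i.1 ?_ hi)
      intro h
      exact hj (Subtype.ext h.symm)
    · intro h
      exact absurd (Finset.mem_univ i) h
  let Λ : (ι → V1) →ₗ[ZMod 2] (ι → V1 × V1) := Dual_loc sg ph gi pl
  have hΛ : ∀ (b : ι → V1) (i : ι), Λ b i = (Dual_G gi b (sg i.1), Dual_G gi b (ph i.1)) :=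
    fun _ _ => rfl
  -- injectivity
  have hinj : Function.Injective Λ := by
    rw [injective_iff_map_eq_zero]
    intro b hb
    have h1 : ∀ i : ι, i.1 ≠ placeInfty k → b i = 0 := by
      intro i hi
      rw [← hGin b i hi]
      have := congrFun hb i
      rw [hΛ] at this
      exact congrArg Prod.fst this
    funext i
    by_cases hi : i.1 = placeInfty k
    · have h3 := congrFun hb i
      rw [hΛ] at h3
      have h4 : Dual_G gi b (ph i.1) = 0 := congrArg Prod.snd h3
      unfold Dual_G at h4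
      rw [Finset.sum_eq_single i] at h4
      · have h5 : cw (gi i) (b i) (ph i.1) = b i := by
          refine cw_one ?_
          change chi (RatFunc k) (g i.1) (ph i.1) = 1
          have h6 := (hg3 i.1 hi).2
          rwa [← hi] at h6
        rw [h5] at h4
        exact h4
      · intro j _ hj
        have hj' : j.1 ≠ placeInfty k := by
          intro h
          exact hj (Subtype.ext (h.trans hi.symm))
        rw [h1 j hj']
        unfold cw
        simp
      · intro h
        exact absurd (Finset.mem_univ i) h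
    · exact h1 i hi
  let L : Submodule (ZMod 2) (ι → V1 × V1) := LinearMap.range Λ
  let WT : Submodule (ZMod 2) (ι → V1 × V1) :=
    AddSubgroup.toZModSubmodule 2 (AddSubgroup.pi Set.univ fun i : ι => W i.1)
  have hWT : ∀ x : ι → V1 × V1, x ∈ WT ↔ ∀ i : ι, x i ∈ W i.1 := by
    intro x
    change x ∈ AddSubgroup.pi Set.univ (fun i : ι => W i.1) ↔ _
    rw [AddSubgroup.mem_pi]
    exact ⟨fun h i => h i (Set.mem_univ i), fun h i _ => h i⟩
  -- a sum over all places is a sum over `T`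
  have hsum : ∀ F : Place k (RatFunc k) → ZMod 2, (∀ v, v ∉ T → F v = 0) →
      ∑ᶠ v, F v = ∑ i : ι, F i.1 := by
    intro F hF
    rw [finsum_eq_sum_of_support_subset F (s := T)]
    · exact (Finset.sum_coe_sort T F).symm
    · intro v hv
      by_contra h
      exact hv (hF v h)
  have hcU : Nat.card (ι → V1 × V1) = (Nat.card V1 * Nat.card V1) ^ Fintype.card ι := by
    rw [Nat.card_pi, Finset.prod_const, Nat.card_prod, Finset.card_univ]
  have hcL : Nat.card L = Nat.card V1 ^ Fintype.card ι := by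
    have h1 : Nat.card L = Nat.card (ι → V1) :=
      (Nat.card_congr (LinearEquiv.ofInjective Λ hinj).toEquiv).symm
    rw [h1, Nat.card_pi, Finset.prod_const, Finset.card_univ]
  have hcW : Nat.card WT = Nat.card V1 ^ Fintype.card ι := by
    have h1 : Nat.card WT = Nat.card (∀ i : ι, W i.1) := by
      refine Nat.card_congr ?_
      exact ((Equiv.refl _).subtypeEquiv fun x => hWT x).trans
        (Equiv.subtypePiEquivPi (p := fun (i : ι) (x : V1 × V1) => x ∈ W i.1))
    rw [h1, Nat.card_pi]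
    rw [Finset.prod_congr rfl fun i _ => hcard i.1, Finset.prod_const, Finset.card_univ]
  have h16 : (Nat.card V1 ^ Fintype.card ι) ^ 2 =
      (Nat.card V1 * Nat.card V1) ^ Fintype.card ι := by
    rw [← pow_mul, mul_comm, pow_mul, sq]
  obtain ⟨l, ⟨β, rfl⟩, w, hw, hx⟩ := lag (frm e fun i : ι => eps i.1) (frm_nondeg ha hn _)
    (frm_symm ha _) L WT
    (by
      rintro _ ⟨b, rfl⟩ _ ⟨b', rfl⟩
      rw [frm_apply]
      have h1 := recip H h2 e _ _ (hG b) (hG b')
      rw [hsum] at h1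
      · exact h1
      · intro v hv
        exact sym_unr _ (hGout b v hv) (hGout b' v hv))
    (by
      intro x hx y hy
      rw [frm_apply]
      exact Finset.sum_eq_zero fun i _ => hiso i.1 _ ((hWT x).1 hx i) _ ((hWT y).1 hy i))
    (by rw [hcL, hcU, h16]) (by rw [hcW, hcU, h16]) (fun i : ι => xi i.1)
    (by
      rintro _ ⟨b, rfl⟩ hb
      rw [frm_apply]
      have hb' : ∀ v, ((fun s => Dual_G gi b s) (sg v), (fun s => Dual_G gi b s) (ph v)) ∈ W v := by
        intro v
        by_cases hv : v ∈ T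
        · exact (hWT _).1 hb ⟨v, hv⟩
        · rw [hTu v hv]
          exact hGout b v hv
      have h1 := horth _ (hG b) hb'
      rw [hsum] at h1
      · exact h1
      · intro v hv
        exact hiso v _ (hTx v hv) _ (hb' v))
  refine ⟨fun s => Dual_G gi β s, hG β, fun v => ?_⟩
  by_cases hv : v ∈ T
  · have h1 := congrFun hx ⟨v, hv⟩
    have h3 : xi v = (Dual_G gi β (sg v), Dual_G gi β (ph v)) + w ⟨v, hv⟩ := h1
    rw [h3, sub_add_cancel_left]
    exact (W v).neg_mem ((hWT w).1 hw ⟨v, hv⟩)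
  · refine (W v).sub_mem ?_ (hTx v hv)
    rw [hTu v hv]
    exact hGout β v hv

end Pool.Agent.SmFJ

namespace Pool.Agent.SmJ.Sys

open Pool.Agent.SmFJ

variable {k : Type} [Field k] [Finite k] {Ω : Type} [Field Ω] [Algebra (RatFunc k) Ω]
  [IsSepClosure (RatFunc k) Ω] {V : Type*} [AddCommGroup V]
  [DistribMulAction (Ω ≃ₐ[RatFunc k] Ω) V] {V1 : Type} [AddCommGroup V1] [Module (ZMod 2) V1]
  (S : Sys (Ω ≃ₐ[RatFunc k] Ω) V V1 (Place k (RatFunc k)))

omit [Finite k] [IsSepClosure (RatFunc k) Ω] in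
theorem smfj_homG (hNN : S.NN = Pool.Agent.SmD.NN (RatFunc k) Ω) {A : Type} [AddCommGroup A]
    (c : (Ω ≃ₐ[RatFunc k] Ω) → A) : S.HomG c ↔ Pool.Agent.SmF.HomG c := by
  unfold HomG TF Pool.Agent.SmF.HomG Pool.Agent.SmF.TF
  rw [hNN]

/-- F2: the field `recip` -/
theorem smfj_recip [Finite V1] (h2 : (2 : k) ≠ 0) (hNN : S.NN = Pool.Agent.SmD.NN (RatFunc k) Ω)
    (hsg : S.sg = fun v => Pool.Agent.Lib.SmD.sg Ω v)
    (hph : S.phi = fun v => Pool.Agent.Lib.SmD.ph Ω v) (heps : S.eps = Pool.Agent.SmF.eps) :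
    ∀ c d : (Ω ≃ₐ[RatFunc k] Ω) → V1, S.HomG c → S.HomG d →
      ∑ᶠ v, S.sy v (S.loc v c) (S.loc v d) = 0 := by
  intro c d hc hd
  have h := Pool.Agent.SmFJ.recip (locVals (Om := Ω) h2) h2 S.e c d ((S.smfj_homG hNN c).1 hc)
    ((S.smfj_homG hNN d).1 hd)
  unfold sy loc
  rw [hsg, hph, heps]
  exact h

/-- F3: the field `corr` -/
theorem smfj_corr (h2 : (2 : k) ≠ 0) (hNN : S.NN = Pool.Agent.SmD.NN (RatFunc k) Ω)
    (hsg : S.sg = fun v => Pool.Agent.Lib.SmD.sg Ω v) (hinf : S.inf = placeInfty k) :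
    ∀ w : Place k (RatFunc k) → V1, {v | w v ≠ 0}.Finite →
      ∃ c : (Ω ≃ₐ[RatFunc k] Ω) → V1, S.HomG c ∧ ∀ v, v ≠ S.inf → c (S.sg v) = w v := by
  classical
  intro w hw
  obtain ⟨c, hc, h1, h3⟩ := Pool.Agent.SmFJ.corr (locVals (Om := Ω) h2) h2
    (hw.toFinset.erase (placeInfty k)) (Finset.notMem_erase _ _) w
  refine ⟨c, (S.smfj_homG hNN c).2 hc, fun v hv => ?_⟩
  rw [hinf] at hv
  rw [hsg]
  by_cases h : v ∈ hw.toFinset.erase (placeInfty k)
  · exact h1 v h
  · have h5 := h3 v h hv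
    rw [Finset.mem_erase, hw.mem_toFinset, Set.mem_ofPred_eq] at h
    refine h5.trans ?_
    by_contra h4
    exact h ⟨hv, Ne.symm h4⟩

/-- F4: the field `dual` -/
theorem smfj_dual [Finite V1] (h2 : (2 : k) ≠ 0) (ha : ∀ w, S.e w w = 0)
    (hn : ∀ w, (∀ w', S.e w w' = 0) → w = 0)
    (hNN : S.NN = Pool.Agent.SmD.NN (RatFunc k) Ω)
    (hsg : S.sg = fun v => Pool.Agent.Lib.SmD.sg Ω v)
    (hph : S.phi = fun v => Pool.Agent.Lib.SmD.ph Ω v) (heps : S.eps = Pool.Agent.SmF.eps) :
    ∀ W : Place k (RatFunc k) → AddSubgroup (V1 × V1), (∀ v, Nat.card (W v) = Nat.card V1) →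
      (∀ v, ∀ x ∈ W v, ∀ y ∈ W v, S.sy v x y = 0) →
      {v | ¬ ∀ x : V1 × V1, x ∈ W v ↔ x.1 = 0}.Finite →
      ∀ xi : Place k (RatFunc k) → V1 × V1, {v | xi v ∉ W v}.Finite →
      (∀ b : (Ω ≃ₐ[RatFunc k] Ω) → V1, S.HomG b → (∀ v, S.loc v b ∈ W v) →
        ∑ᶠ v, S.sy v (xi v) (S.loc v b) = 0) →
      ∃ om : (Ω ≃ₐ[RatFunc k] Ω) → V1, S.HomG om ∧ ∀ v, S.loc v om - xi v ∈ W v := by
  intro W hcard hiso hur xi hxi horth
  unfold sy loc at *
  rw [hsg, hph, heps] at *
  obtain ⟨om, hom, h⟩ := Pool.Agent.SmFJ.dual (locVals (Om := Ω) h2) h2 ha hn W hcard hiso hur xi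
    hxi (fun b hb => horth b ((S.smfj_homG hNN b).2 hb))
  exact ⟨om, (S.smfj_homG hNN om).2 hom, h⟩

end Pool.Agent.SmJ.Sys
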